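import Pool.Agent.Lib.MP_4fbe7c_an.WH.Iface
import Pool.Agent.Lib.MP_4fbe7c_an.SD.H95.Tools
import Pool.Agent.Lib.MP_4fbe7c_an.FC.H54.Core

/-!
Module WFI (helper54): every species whose rate is at least `lam d_{i₀}` decays.
-/

set_option autoImplicit false

open Set MeasureTheory

namespace Pool.Agent.Lib.MP_4fbe7c_an.WH.H54

open Pool.Agent.Lib.MP_4fbe7c_an.SD Pool.Agent.Lib.MP_4fbe7c_an.FC
open Pool.Agent.Lib.MP_4fbe7c_an.WH

theorem mem_PS {L : ℝ} {N : ℕ} {u : Fin N → ℝ → ℝ → ℝ} {k : Fin N} :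
    k ∈ PS L u ↔ Pres L u k := by
  classical
  unfold PS
  simp

/-- The integral of the square of the centered primitive of a nonconstant function is positive. -/
theorem q_pos {L : ℝ} {μ : ℝ → ℝ} (hL : 0 < L) (hμ : ContinuousOn μ (Icc 0 L))
    (hne : ∃ x ∈ Icc 0 L, ∃ y ∈ Icc 0 L, μ x ≠ μ y) :
    0 < ∫ x in (0)..L, ((∫ z in (0)..x, μ z) - x / L * ∫ z in (0)..L, μ z) ^ 2 := by
  obtain ⟨F, hF, hF0⟩ := H95.exists_prim hL hμ
  have hFi : ∀ x ∈ Icc 0 L, ∫ z in (0)..x, μ z = F x := by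
    intro x hx
    rw [H95.ftc hF hμ le_rfl hx.1 hx.2, hF0, sub_zero]
  set I : ℝ := ∫ z in (0)..L, μ z with hI
  set Q : ℝ → ℝ := fun x => F x - x / L * I with hQ
  have e1 : (∫ x in (0)..L, ((∫ z in (0)..x, μ z) - x / L * I) ^ 2) =
      ∫ x in (0)..L, Q x ^ 2 := by
    refine intervalIntegral.integral_congr fun x hx => ?_
    rw [uIcc_of_le hL.le] at hx
    simp only [hQ]
    rw [hFi x hx]
  rw [e1]
  have hQd : DerivOn L Q (fun x => μ x - 1 / L * I) := by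
    intro x hx
    have h1 := hF x hx
    have h2 : HasDerivWithinAt (fun x : ℝ => x / L * I) (1 / L * I) (Icc 0 L) x :=
      (((hasDerivAt_id x).div_const L).mul_const I).hasDerivWithinAt
    exact h1.sub h2
  have hQc : ContinuousOn Q (Icc 0 L) := H95.DerivOn.cont hQd
  have hex : ∃ x ∈ Icc 0 L, Q x ≠ 0 := by
    by_contra hcon
    push Not at hcon
    obtain ⟨x, hx, y, hy, hxy⟩ := hne
    have h3 : ∀ x ∈ Icc 0 L, μ x - 1 / L * I = 0 := by
      intro x hx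
      have h4 : HasDerivWithinAt Q 0 (Icc 0 L) x := by
        have h5 : HasDerivWithinAt (fun _ : ℝ => (0 : ℝ)) 0 (Icc 0 L) x :=
          hasDerivWithinAt_const _ _ _
        exact h5.congr (fun z hz => hcon z hz) (hcon x hx)
      exact ((uniqueDiffOn_Icc hL) x hx).eq_deriv _ (hQd x hx) h4
    apply hxy
    linarith [h3 x hx, h3 y hy]
  obtain ⟨x, hx, hQx⟩ := hex
  exact intervalIntegral.integral_pos hL (hQc.pow 2) (fun z _ => sq_nonneg _)
    ⟨x, hx, by positivity⟩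

theorem wfi (h1 : LgdStatement) (h2 : RegStatement) (h3 : AInStatement) (h4 : SInStatement)
    (h5 : DelStatement) (h6 : LowStatement) (h7 : CmpStatement) (h8 : YBdStatement)
    (h9 : ExSStatement) : WFiStatement := by
  intro L b a a₂ lam μ hL hb ha ha₂ hlam hμ hμ1 hne
  obtain ⟨κ, Cy, hκ, hCy, hreg⟩ := h2 L b a hL hb ha
  obtain ⟨CA, hCA, hA⟩ := h3 L b κ Cy a hL hb hκ hCy ha
  obtain ⟨CS, hCS, hS⟩ := h4 L b κ Cy a hL hb hκ hCy ha
  obtain ⟨C8, hC8, hLow⟩ := h6 L b κ Cy a hL hb hκ hCy ha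
  have ha₂0 : 0 < a₂ := lt_of_lt_of_le ha ha₂
  set q : ℝ := ∫ x in (0)..L, ((∫ z in (0)..x, μ z) - x / L * ∫ z in (0)..L, μ z) ^ 2 with hq
  have hq0 : 0 < q := q_pos hL hμ hne
  have hlam0 : 0 < lam := by linarith
  have hl1 : 0 < 1 - 1 / lam := by
    rw [sub_pos, div_lt_one hlam0]
    exact hlam
  set gam : ℝ := (1 - 1 / lam) / (2 * a₂) with hgam
  have hgam0 : 0 < gam := by positivity
  set C9 : ℝ := 4 * (lam + 1) / ((lam - 1) * a) with hC9
  have hC90 : 0 < C9 := by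
    have : 0 < lam - 1 := by linarith
    positivity
  set C10 : ℝ := gam * CA + 4 * L ^ 2 * C9 * CS * CA + gam + 4 * L ^ 2 * C9 * CS +
    4 * L * Cy ^ 2 * C9 with hC10
  have hC100 : 0 < C10 := by positivity
  refine ⟨min 1 (min (a / (2 * Cy * L)) (gam * q / (2 * C8 * C10))), by positivity, ?_⟩
  intro ε m N d u v w i₀ j hε hε₀ hX hW hi₀ hj hai₀ hia₂ hmin hlj
  have hε1 : ε ≤ 1 := hε₀.trans (min_le_left _ _)
  have hε2 : ε ≤ a / (2 * Cy * L) := hε₀.trans ((min_le_right _ _).trans (min_le_left _ _))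
  have hε3 : ε ≤ gam * q / (2 * C8 * C10) :=
    hε₀.trans ((min_le_right _ _).trans (min_le_right _ _))
  have hak : ∀ k, Pres L u k → a ≤ d k := fun k hk => hai₀.trans (hmin k hk)
  have hεa : Cy * ε ^ 2 * L ≤ a / 2 := by
    rw [le_div_iff₀ (by positivity)] at hε2
    have : ε ^ 2 ≤ ε := by nlinarith
    have h10 : Cy * ε ^ 2 * L ≤ Cy * ε * L := by gcongr
    nlinarith
  obtain ⟨T₁, hT₁, hR⟩ := hreg ε m μ N d u v w hX hW ⟨i₀, hi₀⟩ hak
  obtain ⟨K, T₂, hT₂, hK⟩ := h8 L (2 * b) m N d u v w j hX hj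
  obtain ⟨GA, hGA⟩ := hA ε m μ N d u v w hX hW hεa ⟨i₀, hi₀⟩ hak
  obtain ⟨Gi, hGi⟩ := hS ε m μ N d u v w i₀ hX hW hi₀ hak
  obtain ⟨Gj, hGj⟩ := hS ε m μ N d u v w j hX hW hj hak
  set cA : ℝ := gam + 4 * L ^ 2 * C9 * CS / ε with hcA
  have hcA0 : 0 < cA := by positivity
  set c₀ : ℝ := gam * q / (2 * C8) * ε ^ 2 with hc₀
  have hc₀0 : 0 < c₀ := by positivity
  set T : ℝ := max T₁ T₂ with hT
  have hT0 : 0 < T := lt_of_lt_of_le hT₁ (le_max_left _ _)
  set Om : ℝ → ℝ := fun t => lg L u j t - lg L u i₀ t - 2 * L ^ 2 * C9 * (Gi t + Gj t) +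
    cA * GA t with hOm
  have hpi : i₀ ∈ PS L u := mem_PS.2 hi₀
  have hpj : j ∈ PS L u := mem_PS.2 hj
  have key : ∀ t, T ≤ t → ∃ Om' : ℝ, HasDerivAt Om Om' t ∧ Om' ≤ -c₀ := by
    intro t htT
    have ht : 0 < t := lt_of_lt_of_le hT0 htT
    have hRt := hR t ((le_max_left _ _).trans htT)
    obtain ⟨_, GA', hGA1, hGA2⟩ := hGA t ht hRt
    obtain ⟨_, Gi', hGi1, hGi2⟩ := hGi t ht hRt
    obtain ⟨_, Gj', hGj1, hGj2⟩ := hGj t ht hRt
    have hli := h1 L (2 * b) m N d u v w i₀ hX hi₀ t ht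
    have hlj' := h1 L (2 * b) m N d u v w j hX hj t ht
    have hc := h7 L (2 * b) lam a a₂ m N d u v w t i₀ j hX hi₀ hj ht ha hlam hai₀ hia₂ hlj
    have hDi := h5 L b ε κ Cy m N d u v w t i₀ hX ht hRt hpi
    have hDj := h5 L b ε κ Cy m N d u v w t j hX ht hRt hpj
    have hlow := hLow ε m μ N d u v w t hX hW hak ht hRt
    refine ⟨(d j * yy L u v j t + R1 L m u t) - (d i₀ * yy L u v i₀ t + R1 L m u t) -
      2 * L ^ 2 * C9 * (Gi' + Gj') + cA * GA', ?_, ?_⟩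
    · exact ((hlj'.sub hli).sub ((hGi1.add hGj1).const_mul (2 * L ^ 2 * C9))).add
        (hGA1.const_mul cA)
    · rw [← hq] at hlow
      set A := A2 L m d u w t with hAdef
      set Y := YN L m u t with hY
      set Si := Sd L m d u w i₀ t with hSi
      set Sj := Sd L m d u w j t with hSj
      set Di := De L m d u v i₀ t with hDidef
      set Dj := De L m d u v j t with hDjdef
      -- YN from below
      have g1 : gam * (ε ^ 2 * q / C8) ≤ gam * (Y + A + ε ^ 4) := by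
        refine mul_le_mul_of_nonneg_left ?_ hgam0.le
        rw [div_le_iff₀ hC8]
        linarith
      have g2 : C9 * (Di + Dj) ≤
          C9 * (2 * L ^ 2 * (Si + Sj) + 4 * L * (Cy * ε ^ 2) ^ 2) := by
        refine mul_le_mul_of_nonneg_left ?_ hC90.le
        linarith
      have g3 : 2 * L ^ 2 * C9 * (Si + Sj) ≤
          2 * L ^ 2 * C9 * (Gi' + Gj' + 2 * (CS / ε) * A + 2 * CS * ε ^ 3) := by
        refine mul_le_mul_of_nonneg_left ?_ (by positivity)
        linarith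
      have g4 : cA * A ≤ cA * (-GA' + CA * ε ^ 4) := mul_le_mul_of_nonneg_left hGA2 hcA0.le
      have g5 : cA * A = gam * A + 2 * L ^ 2 * C9 * (2 * (CS / ε) * A) := by
        rw [hcA]
        ring
      have g6 : cA * (CA * ε ^ 4) = gam * CA * ε ^ 4 + 4 * L ^ 2 * C9 * CS * CA * ε ^ 3 := by
        rw [hcA]
        field_simp
      have g7 : C10 * ε ^ 3 ≤ c₀ := by
        rw [le_div_iff₀ (by positivity)] at hε3
        rw [hc₀]
        have g8 : gam * q / (2 * C8) * ε ^ 2 = gam * q * ε ^ 2 / (2 * C8) := by ring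
        rw [g8, le_div_iff₀ (by positivity)]
        calc C10 * ε ^ 3 * (2 * C8) = ε * (2 * C8 * C10) * ε ^ 2 := by ring
          _ ≤ gam * q * ε ^ 2 := mul_le_mul_of_nonneg_right hε3 (sq_nonneg ε)
      have g9 : ε ^ 4 ≤ ε ^ 3 := by
        have : 0 < ε ^ 3 := by positivity
        nlinarith
      have g10 : gam * CA * ε ^ 4 ≤ gam * CA * ε ^ 3 :=
        mul_le_mul_of_nonneg_left g9 (by positivity)
      have g11 : gam * ε ^ 4 ≤ gam * ε ^ 3 := mul_le_mul_of_nonneg_left g9 hgam0.le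
      have g12 : C9 * (4 * L * (Cy * ε ^ 2) ^ 2) ≤ 4 * L * Cy ^ 2 * C9 * ε ^ 3 := by
        have : C9 * (4 * L * (Cy * ε ^ 2) ^ 2) = 4 * L * Cy ^ 2 * C9 * ε ^ 4 := by ring
        rw [this]
        exact mul_le_mul_of_nonneg_left g9 (by positivity)
      have g13 : C10 * ε ^ 3 = gam * CA * ε ^ 3 + 4 * L ^ 2 * C9 * CS * CA * ε ^ 3 +
          gam * ε ^ 3 + 4 * L ^ 2 * C9 * CS * ε ^ 3 + 4 * L * Cy ^ 2 * C9 * ε ^ 3 := by
        rw [hC10]
        ring
      have g14 : gam * (ε ^ 2 * q / C8) = 2 * c₀ := by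
        rw [hc₀]
        field_simp
      have g15 : 2 * L ^ 2 * C9 * (Gi' + Gj' + 2 * (CS / ε) * A + 2 * CS * ε ^ 3) =
          2 * L ^ 2 * C9 * (Gi' + Gj') + 2 * L ^ 2 * C9 * (2 * (CS / ε) * A) +
          4 * L ^ 2 * C9 * CS * ε ^ 3 := by ring
      have g16 : C9 * (2 * L ^ 2 * (Si + Sj) + 4 * L * (Cy * ε ^ 2) ^ 2) =
          2 * L ^ 2 * C9 * (Si + Sj) + C9 * (4 * L * (Cy * ε ^ 2) ^ 2) := by ring
      have g17 : gam * (Y + A + ε ^ 4) = gam * Y + gam * A + gam * ε ^ 4 := by ring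
      have g18 : cA * (-GA' + CA * ε ^ 4) = -(cA * GA') + cA * (CA * ε ^ 4) := by ring
      linarith
  have key2 := FC.H54.linear_decay key
  -- bounds
  have hlgi : ∀ t, T ≤ t → lg L u i₀ t ≤ L * Real.log (4 * b) := by
    intro t htT
    have hRt := hR t ((le_max_left _ _).trans htT)
    have g1 : gm L u i₀ t ≤ Wg L u t := by
      unfold Wg
      exact Finset.single_le_sum (f := fun k => gm L u k t) (fun k _ => (Real.exp_pos _).le) hpi
    have g2 := g1.trans hRt.wg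
    have g3 : lg L u i₀ t / L ≤ Real.log (4 * b) := by
      rw [Real.le_log_iff_exp_le (by positivity)]
      exact g2
    rw [div_le_iff₀ hL] at g3
    linarith
  refine h9 L (2 * b) c₀ (Om T + c₀ * T + L * Real.log (4 * b) + 4 * L ^ 2 * C9 * CS) K T m N d
    u v w j hX hj hT0 hc₀0 (fun t htT => hK t ((le_max_right _ _).trans htT)) fun t htT => ?_
  have ht : 0 < t := lt_of_lt_of_le hT0 htT
  have hRt := hR t ((le_max_left _ _).trans htT)
  have g1 := key2 t htT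
  have g2 := hlgi t htT
  have g3 := (hGA t ht hRt).1
  have g4 := (hGi t ht hRt).1
  have g5 := (hGj t ht hRt).1
  have g6 : Om t = lg L u j t - lg L u i₀ t - 2 * L ^ 2 * C9 * (Gi t + Gj t) +
    cA * GA t := rfl
  have g7 : 0 ≤ cA * GA t := mul_nonneg hcA0.le g3
  have g8 : 2 * L ^ 2 * C9 * (Gi t + Gj t) ≤ 2 * L ^ 2 * C9 * (CS + CS) :=
    mul_le_mul_of_nonneg_left (by linarith) (by positivity)
  have g9 : 2 * L ^ 2 * C9 * (CS + CS) = 4 * L ^ 2 * C9 * CS := by ring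
  rw [g6] at g1
  linarith

end Pool.Agent.Lib.MP_4fbe7c_an.WH.H54
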